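import Mathlib

/-!
# The approximation ratio of the k-lookahead auction does not tend to 1

Question 1 of MP_0f9109_lc.  The answer is negative: `ρ_k ≤ 4/5` for every `k ≥ 2`.

The instance.  One bidder always has the value 1; she is never among the `k` highest.  The rich
bidder has the value `2` or `b` (with `b` large), and the other `k - 1` bidders have values which are
only slightly larger than 1, namely `1 + δ (x_j + 1)` with integers `x_j`.  The sum of the `x_j` is
`M` (layer 0) or `M + 1` (layer 1); in the layer 1 the rich bidder always has the value `2`, in the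
layer 0 she has the value `2` with a large and the value `b` with a small probability.  An optimal mechanism
offers her the price `b` in the layer 0 and the price `2` in the layer 1, and sells to the bidder of
value 1 when she declines.  A mechanism for the `k` highest bidders cannot imitate this: whoever
among the `k - 1` bidders gets the item in the layer 0 when the rich bidder has the value `2` must
get it, by truthfulness, also if her value is raised by `δ`, hence in the layer 1.
-/

set_option autoImplicit false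
set_option linter.unusedSectionVars false
set_option linter.unusedVariables false

open Finset

namespace Pool.Agent.Results.MP_0f9109_lc.RatioStaysBelow

/-- All valuations are positive. -/
def Positive {ι : Type} (v : ι → ℝ) : Prop := ∀ i, 0 < v i

/-- A mechanism for the sale of one item to the bidders `i : ι`: for every vector `v` of positive
bids, `alloc v i` is the probability that `i` gets the item and `pay v i` is her expected payment.
It is truthful in expectation and individually rational. -/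
structure Mechanism (ι : Type) [Fintype ι] [DecidableEq ι] where
  /-- the allocation probabilities -/
  alloc : (ι → ℝ) → ι → ℝ
  /-- the expected payments -/
  pay : (ι → ℝ) → ι → ℝ
  alloc_nonneg : ∀ v, Positive v → ∀ i, 0 ≤ alloc v i
  alloc_le_one : ∀ v, Positive v → ∑ i, alloc v i ≤ 1
  truthful : ∀ v, Positive v → ∀ i, ∀ b, 0 < b →
    v i * alloc (Function.update v i b) i - pay (Function.update v i b) i
      ≤ v i * alloc v i - pay v i
  rational : ∀ v, Positive v → ∀ i, 0 ≤ v i * alloc v i - pay v i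

/-- A finitely supported joint distribution of the valuations of `n` bidders, given as the law of
the random vector `val` on a finite probability space. -/
structure Dist (n : ℕ) where
  /-- the sample space -/
  Ω : Type
  /-- the sample space is finite -/
  fin : Fintype Ω
  /-- the probabilities -/
  prob : Ω → ℝ
  /-- the valuation vector -/
  val : Ω → Fin n → ℝ
  prob_nonneg : ∀ ω, 0 ≤ prob ω
  prob_sum : ∑ ω, prob ω = 1
  val_pos : ∀ ω, Positive (val ω)

attribute [instance] Dist.fin

/-- The optimal expected revenue. -/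
noncomputable def OPT {n : ℕ} (D : Dist n) : ℝ :=
  sSup {r : ℝ | ∃ M : Mechanism (Fin n), r = ∑ ω, D.prob ω * ∑ i, M.pay (D.val ω) i}

/-- The set of the `k` highest bidders, ties broken by index: the bidders `i` such that fewer than
`k` bidders come before `i`. -/
noncomputable def top {n : ℕ} (k : ℕ) (v : Fin n → ℝ) : Finset (Fin n) := by
  classical
  exact univ.filter fun i => (univ.filter fun j => v i < v j ∨ (v j = v i ∧ j < i)).card < k

/-- The event on which the distribution is conditioned when `ω` occurs: the same set `K` of highest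
bidders and the same values of the bidders outside `K`. -/
noncomputable def cell {n : ℕ} (k : ℕ) (D : Dist n) (ω : D.Ω) : Finset D.Ω := by
  classical
  exact univ.filter fun ω' => top k (D.val ω') = top k (D.val ω) ∧
    ∀ j, j ∉ top k (D.val ω) → D.val ω' j = D.val ω j

/-- The optimal expected revenue of a mechanism for the bidders in `K = top k (D.val ω)`, for the
conditional distribution of their values given the event `cell k D ω`. -/
noncomputable def optTop {n : ℕ} (k : ℕ) (D : Dist n) (ω : D.Ω) : ℝ :=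
  sSup {r : ℝ | ∃ M : Mechanism {i // i ∈ top k (D.val ω)},
    r = (∑ ω' ∈ cell k D ω, D.prob ω' * ∑ i, M.pay (fun i => D.val ω' i.1) i) /
      ∑ ω' ∈ cell k D ω, D.prob ω'}

/-- The expected revenue of the `k`-lookahead mechanism. -/
noncomputable def rev {n : ℕ} (k : ℕ) (D : Dist n) : ℝ := ∑ ω, D.prob ω * optTop k D ω

/-- The approximation ratio of the `k`-lookahead mechanism. -/
noncomputable def rho (k : ℕ) : ℝ :=
  sInf {r : ℝ | ∃ (n : ℕ) (D : Dist n), 0 < OPT D ∧ r = rev k D / OPT D}

/-! ### General facts -/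

section General

variable {ι : Type} [Fintype ι] [DecidableEq ι]

/-- nobody gets anything -/
def zeroM (ι : Type) [Fintype ι] [DecidableEq ι] : Mechanism ι where
  alloc := fun _ _ => 0
  pay := fun _ _ => 0
  alloc_nonneg := fun _ _ _ => le_rfl
  alloc_le_one := fun _ _ => by simp
  truthful := fun _ _ _ _ _ => le_rfl
  rational := fun _ _ _ => by simp

lemma pay_le (M : Mechanism ι) {v : ι → ℝ} (hv : Positive v) (i : ι) :
    M.pay v i ≤ v i * M.alloc v i := by
  have := M.rational v hv i
  linarith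

lemma alloc_le (M : Mechanism ι) {v : ι → ℝ} (hv : Positive v) (i : ι) : M.alloc v i ≤ 1 :=
  (Finset.single_le_sum (fun j _ => M.alloc_nonneg v hv j) (mem_univ i)).trans
    (M.alloc_le_one v hv)

/-- the allocation is monotone in the own value -/
lemma alloc_mono (M : Mechanism ι) {v : ι → ℝ} (hv : Positive v) (i : ι) {b : ℝ} (hb : v i < b) :
    M.alloc v i ≤ M.alloc (Function.update v i b) i := by
  have hb0 : 0 < b := (hv i).trans hb
  have hv' : Positive (Function.update v i b) := by
    intro j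
    by_cases h : j = i
    · subst h; simpa using hb0
    · rw [Function.update_of_ne h]; exact hv j
  have h1 := M.truthful v hv i b hb0
  have h2 := M.truthful (Function.update v i b) hv' i (v i) (hv i)
  rw [Function.update_self, Function.update_idem, Function.update_eq_self] at h2
  nlinarith

lemma rev_le (M : Mechanism ι) {v : ι → ℝ} (hv : Positive v) : ∑ i, M.pay v i ≤ ∑ i, v i := by
  refine Finset.sum_le_sum fun i _ => (pay_le M hv i).trans ?_
  have := alloc_le M hv i
  have := hv i
  nlinarith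

end General

lemma bdd_OPT {n : ℕ} (D : Dist n) :
    BddAbove {r : ℝ | ∃ M : Mechanism (Fin n), r = ∑ ω, D.prob ω * ∑ i, M.pay (D.val ω) i} := by
  refine ⟨∑ ω, D.prob ω * ∑ i, D.val ω i, ?_⟩
  rintro r ⟨M, rfl⟩
  exact Finset.sum_le_sum fun ω _ =>
    mul_le_mul_of_nonneg_left (rev_le M (D.val_pos ω)) (D.prob_nonneg ω)

lemma OPT_ge {n : ℕ} (D : Dist n) (M : Mechanism (Fin n)) :
    ∑ ω, D.prob ω * ∑ i, M.pay (D.val ω) i ≤ OPT D :=
  le_csSup (bdd_OPT D) ⟨M, rfl⟩

lemma optTop_nonneg {n : ℕ} (k : ℕ) (D : Dist n) (ω : D.Ω) : 0 ≤ optTop k D ω := by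
  unfold optTop
  by_cases hb : BddAbove {r : ℝ | ∃ M : Mechanism {i // i ∈ top k (D.val ω)},
    r = (∑ ω' ∈ cell k D ω, D.prob ω' * ∑ i, M.pay (fun i => D.val ω' i.1) i) /
      ∑ ω' ∈ cell k D ω, D.prob ω'}
  · refine le_csSup hb ⟨zeroM _, ?_⟩
    simp [zeroM]
  · rw [Real.sSup_of_not_bddAbove hb]

lemma rev_nonneg {n : ℕ} (k : ℕ) (D : Dist n) : 0 ≤ rev k D :=
  Finset.sum_nonneg fun ω _ => mul_nonneg (D.prob_nonneg ω) (optTop_nonneg k D ω)

lemma rho_le {n : ℕ} (k : ℕ) (D : Dist n) (h : 0 < OPT D) : rho k ≤ rev k D / OPT D := by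
  refine csInf_le ⟨0, ?_⟩ ⟨n, D, h, rfl⟩
  rintro r ⟨n', D', h', rfl⟩
  exact div_nonneg (rev_nonneg k D') h'.le

/-! ### The instance -/

section Instance

variable {m N : ℕ} [NeZero N] {b δ : ℝ}

/-- the layer -/
def lay (τ : Fin 3) : ℝ := if τ = 2 then 1 else 0

/-- the value of the rich bidder -/
noncomputable def rich (b : ℝ) (τ : Fin 3) : ℝ := if τ = 1 then b else 2

/-- the weights -/
noncomputable def wt (b : ℝ) (τ : Fin 3) : ℝ := if τ = 1 then 2 / (b - 2) else 1

/-- the index of a low bidder -/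
def low (j : Fin m) : Fin (m + 3) := ⟨j + 2, by omega⟩

/-- the index of the last low bidder -/
def lst (m : ℕ) : Fin (m + 3) := ⟨m + 2, by omega⟩

/-- the values -/
noncomputable def value (b δ : ℝ) (ω : Fin 3 × (Fin m → Fin N)) (i : Fin (m + 3)) : ℝ :=
  if i = 0 then 1 else if i = 1 then rich b ω.1 else
    if h : i.1 - 2 < m then 1 + δ * (((ω.2 ⟨i.1 - 2, h⟩ : ℕ) : ℝ) + 1)
    else 1 + δ * ((m * N : ℝ) + lay ω.1 - ∑ j, ((ω.2 j : ℕ) : ℝ) + 1)

lemma value_zero (ω : Fin 3 × (Fin m → Fin N)) : value b δ ω 0 = 1 := by simp [value]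

lemma value_one (ω : Fin 3 × (Fin m → Fin N)) : value b δ ω 1 = rich b ω.1 := by
  rw [value, if_neg, if_pos rfl]
  intro h
  have := congrArg Fin.val h
  simp at this

lemma value_low (ω : Fin 3 × (Fin m → Fin N)) (j : Fin m) :
    value b δ ω (low j) = 1 + δ * (((ω.2 j : ℕ) : ℝ) + 1) := by
  have h0 : low j ≠ 0 := by
    intro h
    have := congrArg Fin.val h
    simp [low] at this
  have h1 : low j ≠ 1 := by
    intro h
    have := congrArg Fin.val h
    simp [low] at this
  have h2 : (low j).1 - 2 < m := by simp [low]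
  rw [value, if_neg h0, if_neg h1, dif_pos h2]
  have h3 : (⟨(low j).1 - 2, h2⟩ : Fin m) = j := by
    apply Fin.ext
    simp [low]
  rw [h3]

lemma value_lst (ω : Fin 3 × (Fin m → Fin N)) :
    value b δ ω (lst m) = 1 + δ * ((m * N : ℝ) + lay ω.1 - ∑ j, ((ω.2 j : ℕ) : ℝ) + 1) := by
  have h0 : lst m ≠ 0 := by
    intro h
    have := congrArg Fin.val h
    simp [lst] at this
  have h1 : lst m ≠ 1 := by
    intro h
    have := congrArg Fin.val h
    simp [lst] at this
  have h2 : ¬ (lst m).1 - 2 < m := by simp [lst]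
  rw [value, if_neg h0, if_neg h1, dif_neg h2]

/-- every bidder is one of the four kinds -/
lemma cases_idx (i : Fin (m + 3)) : i = 0 ∨ i = 1 ∨ (∃ j : Fin m, i = low j) ∨ i = lst m := by
  obtain ⟨i, hi⟩ := i
  rcases Nat.lt_or_ge i 2 with h | h
  · interval_cases i
    · left; rfl
    · right; left; apply Fin.ext; simp
  · right; right
    rcases Nat.lt_or_ge (i - 2) m with h2 | h2
    · left
      refine ⟨⟨i - 2, h2⟩, ?_⟩
      apply Fin.ext
      simp only [low]
      omega
    · right
      apply Fin.ext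
      simp only [lst]
      omega

lemma sum_le (x : Fin m → Fin N) : ∑ j, ((x j : ℕ) : ℝ) ≤ m * N := by
  have h : ∑ j : Fin m, ((x j : ℕ) : ℝ) ≤ ∑ _j : Fin m, (N : ℝ) :=
    Finset.sum_le_sum fun j _ => by exact_mod_cast (x j).2.le
  simpa using h

lemma sum_nonneg' (x : Fin m → Fin N) : 0 ≤ ∑ j, ((x j : ℕ) : ℝ) :=
  Finset.sum_nonneg fun j _ => Nat.cast_nonneg _

lemma lay_zero : lay 0 = 0 := if_neg (by decide)

lemma lay_two : lay 2 = 1 := if_pos rfl

lemma lay_nonneg (τ : Fin 3) : 0 ≤ lay τ := by unfold lay; split_ifs <;> norm_num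

lemma lay_le (τ : Fin 3) : lay τ ≤ 1 := by unfold lay; split_ifs <;> norm_num

lemma value_gt (hb : 2 < b) (hδ : 0 < δ) (ω : Fin 3 × (Fin m → Fin N)) {i : Fin (m + 3)}
    (hi : i ≠ 0) : 1 < value b δ ω i := by
  rcases cases_idx i with h | h | ⟨j, h⟩ | h
  · exact absurd h hi
  · subst h
    rw [value_one, rich]
    split_ifs <;> linarith
  · subst h
    rw [value_low]
    have : (0 : ℝ) ≤ ((ω.2 j : ℕ) : ℝ) := Nat.cast_nonneg _
    nlinarith
  · subst h
    rw [value_lst]
    have h1 := sum_le ω.2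
    have h2 := lay_nonneg ω.1
    have : 0 < δ * ((m * N : ℝ) + lay ω.1 - ∑ j, ((ω.2 j : ℕ) : ℝ) + 1) := by
      apply mul_pos hδ
      linarith
    linarith

/-- the values of the low bidders are close to one -/
lemma value_small (hδ : 0 < δ) (ω : Fin 3 × (Fin m → Fin N)) {i : Fin (m + 3)}
    (hi : i ≠ 0) (hi1 : i ≠ 1) : value b δ ω i ≤ 1 + δ * (m * N + N + 2) := by
  have hN : (0 : ℝ) ≤ N := Nat.cast_nonneg _
  have hmN : (0 : ℝ) ≤ m * N := by positivity
  rcases cases_idx i with h | h | ⟨j, h⟩ | h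
  · exact absurd h hi
  · exact absurd h hi1
  · subst h
    rw [value_low]
    have : ((ω.2 j : ℕ) : ℝ) ≤ N := by exact_mod_cast (ω.2 j).2.le
    nlinarith
  · subst h
    rw [value_lst]
    have h1 := sum_nonneg' ω.2
    have h2 := lay_le ω.1
    nlinarith

lemma value_pos (hb : 2 < b) (hδ : 0 < δ) (ω : Fin 3 × (Fin m → Fin N)) :
    Positive (value b δ ω) := by
  intro i
  by_cases h : i = 0
  · subst h; rw [value_zero]; norm_num
  · exact one_pos.trans (value_gt hb hδ ω h)

/-- raising the value of the last bidder -/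
lemma up_lst (x : Fin m → Fin N) :
    value b δ ((2 : Fin 3), x) =
      Function.update (value b δ ((0 : Fin 3), x)) (lst m) (value b δ ((0 : Fin 3), x) (lst m) + δ) := by
  funext i
  by_cases hi : i = lst m
  · subst hi
    rw [Function.update_self, value_lst, value_lst]
    simp only [lay_zero, lay_two]
    ring
  · rw [Function.update_of_ne hi]
    rcases cases_idx i with h | h | ⟨j, h⟩ | h
    · subst h; rw [value_zero, value_zero]
    · subst h; rw [value_one, value_one]; simp [rich]
    · subst h; rw [value_low, value_low]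
    · exact absurd h hi

/-- raising the value of a low bidder -/
lemma up_low (x x' : Fin m → Fin N) (j : Fin m) (h1 : ∀ i, i ≠ j → x' i = x i)
    (h2 : ((x' j : ℕ) : ℝ) = (x j : ℕ) + 1) :
    value b δ ((2 : Fin 3), x') =
      Function.update (value b δ ((0 : Fin 3), x)) (low j) (value b δ ((0 : Fin 3), x) (low j) + δ) := by
  have hs : ∑ i, ((x' i : ℕ) : ℝ) = ∑ i, ((x i : ℕ) : ℝ) + 1 := by
    rw [← Finset.add_sum_erase _ _ (mem_univ j), ← Finset.add_sum_erase _ _ (mem_univ j), h2]
    have : ∑ i ∈ univ.erase j, ((x' i : ℕ) : ℝ) = ∑ i ∈ univ.erase j, ((x i : ℕ) : ℝ) :=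
      Finset.sum_congr rfl fun i hi => by rw [h1 i (Finset.ne_of_mem_erase hi)]
    rw [this]
    ring
  funext i
  by_cases hi : i = low j
  · subst hi
    rw [Function.update_self, value_low, value_low]
    simp only
    rw [h2]
    ring
  · rw [Function.update_of_ne hi]
    rcases cases_idx i with h | h | ⟨j', h⟩ | h
    · subst h; rw [value_zero, value_zero]
    · subst h; rw [value_one, value_one]; simp [rich]
    · subst h
      rw [value_low, value_low]
      simp only
      rw [h1 j' (fun h => hi (by rw [h]))]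
    · subst h
      rw [value_lst, value_lst]
      simp only [lay_zero, lay_two]
      rw [hs]
      ring

/-- raising the value of the rich bidder -/
lemma up_rich (x : Fin m → Fin N) :
    value b δ ((0 : Fin 3), x) = Function.update (value b δ ((1 : Fin 3), x)) 1 2 := by
  funext i
  by_cases hi : i = 1
  · subst hi
    rw [Function.update_self, value_one]
    simp [rich]
  · rw [Function.update_of_ne hi]
    rcases cases_idx i with h | h | ⟨j, h⟩ | h
    · subst h; rw [value_zero, value_zero]
    · exact absurd h hi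
    · subst h; rw [value_low, value_low]
    · subst h; rw [value_lst, value_lst]; simp [lay]

/-- the number of points with a given coordinate -/
lemma count (j : Fin m) (c : Fin N) :
    ((univ.filter fun x : Fin m → Fin N => x j = c).card : ℝ) = (N : ℝ) ^ m / N := by
  have hN : (N : ℝ) ≠ 0 := by exact_mod_cast NeZero.ne N
  rw [eq_div_iff hN]
  have h1 : (univ.filter fun x : Fin m → Fin N => x j = c) =
      Fintype.piFinset (fun i => if i = j then {c} else (univ : Finset (Fin N))) := by
    ext x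
    rw [mem_filter, Fintype.mem_piFinset]
    constructor
    · rintro ⟨-, h⟩ i
      by_cases hi : i = j
      · subst hi; simp [h]
      · simp [hi]
    · intro h
      have := h j
      simpa using this
  have h2 : (univ.filter fun x : Fin m → Fin N => x j = c).card * N = N ^ m := by
    rw [h1, Fintype.card_piFinset]
    have h3 : (∏ i : Fin m, (if i = j then N else 1)) = N := by
      rw [Finset.prod_ite_eq' univ j]
      simp
    have h4 : ∀ i : Fin m, (if i = j then ({c} : Finset (Fin N)) else univ).card =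
        if i = j then 1 else N := by
      intro i
      by_cases hi : i = j <;> simp [hi]
    calc (∏ i, (if i = j then ({c} : Finset (Fin N)) else univ).card) * N
        = (∏ i : Fin m, if i = j then 1 else N) * ∏ i : Fin m, (if i = j then N else 1) := by
          rw [h3]
          congr 1
          exact Finset.prod_congr rfl fun i _ => h4 i
      _ = ∏ _i : Fin m, N := by
          rw [← Finset.prod_mul_distrib]
          refine Finset.prod_congr rfl fun i _ => ?_
          by_cases hi : i = j <;> simp [hi]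
      _ = N ^ m := by simp
  exact_mod_cast h2

end Instance

/-! ### The upper bound for the mechanisms for the high bidders -/

section Upper

variable {m N : ℕ} [NeZero N] {b δ : ℝ} {ι : Type} [Fintype ι] [DecidableEq ι]

/-- the values of the bidders in `ι` -/
noncomputable def V (f : ι → Fin (m + 3)) (b δ : ℝ) (ω : Fin 3 × (Fin m → Fin N)) : ι → ℝ :=
  fun i => value b δ ω (f i)

lemma V_update (f : ι → Fin (m + 3)) (hf : Function.Injective f) (ω ω' : Fin 3 × (Fin m → Fin N))
    (i : ι) (y : ℝ) (h : value b δ ω' = Function.update (value b δ ω) (f i) y) :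
    V f b δ ω' = Function.update (V f b δ ω) i y := by
  funext j
  by_cases hj : j = i
  · subst hj
    rw [Function.update_self, V, h, Function.update_self]
  · rw [Function.update_of_ne hj, V, V, h, Function.update_of_ne (fun h' => hj (hf h'))]

lemma V_pos (hb : 2 < b) (hδ : 0 < δ) (f : ι → Fin (m + 3)) (ω : Fin 3 × (Fin m → Fin N)) :
    Positive (V f b δ ω) := fun i => value_pos hb hδ ω (f i)

/-- a low bidder gets the item in layer one at least as often as in layer zero, up to the boundary -/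
lemma shift (hb : 2 < b) (hδ : 0 < δ) (f : ι → Fin (m + 3)) (hf : Function.Injective f)
    (hf0 : ∀ i, f i ≠ 0) (M : Mechanism ι) (i : ι) (hi : f i ≠ 1) :
    ∑ x : Fin m → Fin N, M.alloc (V f b δ ((0 : Fin 3), x)) i ≤
      ∑ x : Fin m → Fin N, M.alloc (V f b δ ((2 : Fin 3), x)) i + (N : ℝ) ^ m / N := by
  have hE : (0 : ℝ) ≤ (N : ℝ) ^ m / N := by positivity
  rcases cases_idx (f i) with h | h | ⟨j, h⟩ | h
  · exact absurd h (hf0 i)
  · exact absurd h hi
  · -- a low bidder
    let last : Fin N := ⟨N - 1, Nat.sub_lt (NeZero.pos N) one_pos⟩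
    let c : Fin m → Fin N := Pi.single j 1
    have h1 : ∀ x : Fin m → Fin N, M.alloc (V f b δ ((0 : Fin 3), x)) i ≤
        M.alloc (V f b δ ((2 : Fin 3), x + c)) i + if x j = last then 1 else 0 := by
      intro x
      by_cases hx : x j = last
      · rw [if_pos hx]
        have := alloc_le M (V_pos hb hδ f ((0 : Fin 3), x)) i
        have := M.alloc_nonneg _ (V_pos hb hδ f ((2 : Fin 3), x + c)) i
        linarith
      · rw [if_neg hx, add_zero]
        have hlt : (x j : ℕ) + 1 < N := by
          have h2 := (x j).2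
          have h3 : (x j : ℕ) ≠ N - 1 := fun h' => hx (Fin.ext h')
          omega
        have h4 : V f b δ ((2 : Fin 3), x + c) = Function.update (V f b δ ((0 : Fin 3), x)) i
            (V f b δ ((0 : Fin 3), x) i + δ) := by
          apply V_update f hf
          rw [V, h]
          apply up_low
          · intro i' hi'
            simp [c, hi']
          · have h5 : (x + c) j = x j + 1 := by simp [c]
            rw [h5]
            have h6 : ((x j + 1 : Fin N) : ℕ) = (x j : ℕ) + 1 := by
              rw [Fin.val_add, Fin.val_one', Nat.add_mod_mod, Nat.mod_eq_of_lt hlt]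
            rw [h6]
            push_cast
            ring
        rw [h4]
        exact alloc_mono M (V_pos hb hδ f _) i (by linarith)
    calc ∑ x : Fin m → Fin N, M.alloc (V f b δ ((0 : Fin 3), x)) i
        ≤ ∑ x : Fin m → Fin N, (M.alloc (V f b δ ((2 : Fin 3), x + c)) i +
            if x j = last then 1 else 0) := Finset.sum_le_sum fun x _ => h1 x
      _ = ∑ x : Fin m → Fin N, M.alloc (V f b δ ((2 : Fin 3), x + c)) i +
            ∑ x : Fin m → Fin N, (if x j = last then (1 : ℝ) else 0) := Finset.sum_add_distrib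
      _ = ∑ x : Fin m → Fin N, M.alloc (V f b δ ((2 : Fin 3), x)) i + (N : ℝ) ^ m / N := by
          congr 1
          · exact Equiv.sum_comp (Equiv.addRight c)
              (fun x => M.alloc (V f b δ ((2 : Fin 3), x)) i)
          · rw [← count j last, Finset.sum_boole]
  · -- the last bidder
    have h1 : ∀ x : Fin m → Fin N, M.alloc (V f b δ ((0 : Fin 3), x)) i ≤
        M.alloc (V f b δ ((2 : Fin 3), x)) i := by
      intro x
      have h4 : V f b δ ((2 : Fin 3), x) = Function.update (V f b δ ((0 : Fin 3), x)) i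
          (V f b δ ((0 : Fin 3), x) i + δ) := by
        apply V_update f hf
        rw [V, h]
        exact up_lst x
      rw [h4]
      exact alloc_mono M (V_pos hb hδ f _) i (by linarith)
    have := Finset.sum_le_sum fun x (_ : x ∈ (univ : Finset (Fin m → Fin N))) => h1 x
    linarith

/-- the weighted payments of the rich bidder in layer zero -/
lemma rich_pay (hb : 2 < b) (hδ : 0 < δ) (f : ι → Fin (m + 3)) (hf : Function.Injective f)
    (M : Mechanism ι) (R : ι) (hR : f R = 1) (x : Fin m → Fin N) :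
    M.pay (V f b δ ((0 : Fin 3), x)) R + 2 / (b - 2) * M.pay (V f b δ ((1 : Fin 3), x)) R ≤
      2 / (b - 2) * b * M.alloc (V f b δ ((1 : Fin 3), x)) R := by
  have h1 : V f b δ ((0 : Fin 3), x) = Function.update (V f b δ ((1 : Fin 3), x)) R 2 := by
    apply V_update f hf
    rw [hR]
    exact up_rich x
  have h2 := M.truthful _ (V_pos hb hδ f ((1 : Fin 3), x)) R 2 two_pos
  rw [← h1] at h2
  have h3 : V f b δ ((1 : Fin 3), x) R = b := by rw [V, hR, value_one]; simp [rich]
  have h4 := pay_le M (V_pos hb hδ f ((0 : Fin 3), x)) R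
  have h5 : V f b δ ((0 : Fin 3), x) R = 2 := by rw [V, hR, value_one]; simp [rich]
  rw [h3] at h2
  rw [h5] at h4
  set A0 := M.alloc (V f b δ ((0 : Fin 3), x)) R
  set A1 := M.alloc (V f b δ ((1 : Fin 3), x)) R
  set P0 := M.pay (V f b δ ((0 : Fin 3), x)) R
  set P1 := M.pay (V f b δ ((1 : Fin 3), x)) R
  have hb2 : 0 < b - 2 := by linarith
  have hq : 0 < 2 / (b - 2) := by positivity
  have hq2 : 2 / (b - 2) * (b - 2) = 2 := by field_simp
  have h6 : P1 ≤ b * A1 - b * A0 + P0 := by linarith
  have h7 : 2 / (b - 2) * P1 ≤ 2 / (b - 2) * (b * A1 - b * A0 + P0) :=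
    mul_le_mul_of_nonneg_left h6 hq.le
  have h8 : (1 + 2 / (b - 2)) * P0 ≤ (1 + 2 / (b - 2)) * (2 * A0) :=
    mul_le_mul_of_nonneg_left h4 (by linarith)
  have h9 : (1 + 2 / (b - 2)) * (2 * A0) = 2 / (b - 2) * b * A0 := by
    have : (2 : ℝ) + 2 * (2 / (b - 2)) = 2 / (b - 2) * b := by linarith
    calc (1 + 2 / (b - 2)) * (2 * A0) = (2 + 2 * (2 / (b - 2))) * A0 := by ring
      _ = _ := by rw [this]
  nlinarith

/-- the main estimate: the weighted revenue of a mechanism for the high bidders -/
lemma main_bound (hb : 2 < b) (hδ : 0 < δ) (hε : 1 + δ * (m * N + N + 2) ≤ b)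
    (f : ι → Fin (m + 3)) (hf : Function.Injective f) (hcard : Fintype.card ι = m + 2)
    (hf0 : ∀ i, f i ≠ 0) (M : Mechanism ι) (R : ι) (hR : f R = 1) :
    ∑ ω : Fin 3 × (Fin m → Fin N), wt b ω.1 * ∑ i, M.pay (V f b δ ω) i ≤
      (N : ℝ) ^ m * (2 / (b - 2) * b + 2 + 2 * (δ * (m * N + N + 2))) +
        (1 + δ * (m * N + N + 2)) * ((m + 1) * ((N : ℝ) ^ m / N)) := by
  set ε := δ * (m * N + N + 2) with hεd
  have hε0 : 0 ≤ ε := by
    rw [hεd]
    positivity
  have hb2 : 0 < b - 2 := by linarith
  have hq : 0 < 2 / (b - 2) := by positivity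
  -- the others
  have hoth : ∀ ω : Fin 3 × (Fin m → Fin N), ∑ i ∈ univ.erase R, M.pay (V f b δ ω) i ≤
      (1 + ε) * ∑ i ∈ univ.erase R, M.alloc (V f b δ ω) i := by
    intro ω
    rw [Finset.mul_sum]
    refine Finset.sum_le_sum fun i hi => (pay_le M (V_pos hb hδ f ω) i).trans ?_
    have hiR : f i ≠ 1 := by
      intro h
      exact (Finset.ne_of_mem_erase hi) (hf (h.trans hR.symm))
    exact mul_le_mul_of_nonneg_right (value_small hδ ω (hf0 i) hiR)
      (M.alloc_nonneg _ (V_pos hb hδ f ω) i)
  have hsplit : ∀ (ω : Fin 3 × (Fin m → Fin N)) (g : ι → ℝ), ∑ i, g i =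
      g R + ∑ i ∈ univ.erase R, g i := fun ω g => (Finset.add_sum_erase _ _ (mem_univ R)).symm
  have hfeas : ∀ ω : Fin 3 × (Fin m → Fin N), M.alloc (V f b δ ω) R +
      ∑ i ∈ univ.erase R, M.alloc (V f b δ ω) i ≤ 1 := by
    intro ω
    rw [← hsplit ω (M.alloc (V f b δ ω))]
    exact M.alloc_le_one _ (V_pos hb hδ f ω)
  have hothnn : ∀ ω : Fin 3 × (Fin m → Fin N),
      0 ≤ ∑ i ∈ univ.erase R, M.alloc (V f b δ ω) i := fun ω =>
    Finset.sum_nonneg fun i _ => M.alloc_nonneg _ (V_pos hb hδ f ω) i
  -- pointwise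
  have hpt : ∀ x : Fin m → Fin N,
      ∑ i, M.pay (V f b δ ((0 : Fin 3), x)) i + 2 / (b - 2) * ∑ i, M.pay (V f b δ ((1 : Fin 3), x)) i
        + ∑ i, M.pay (V f b δ ((2 : Fin 3), x)) i ≤
      2 / (b - 2) * b + 2 + (1 + ε) * ∑ i ∈ univ.erase R, M.alloc (V f b δ ((0 : Fin 3), x)) i
        - (1 - ε) * ∑ i ∈ univ.erase R, M.alloc (V f b δ ((2 : Fin 3), x)) i := by
    intro x
    rw [hsplit ((0 : Fin 3), x) (M.pay (V f b δ ((0 : Fin 3), x))),
      hsplit ((1 : Fin 3), x) (M.pay (V f b δ ((1 : Fin 3), x))),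
      hsplit ((2 : Fin 3), x) (M.pay (V f b δ ((2 : Fin 3), x)))]
    have e1 := rich_pay hb hδ f hf M R hR x
    have e2 := hoth ((0 : Fin 3), x)
    have e3 := hoth ((1 : Fin 3), x)
    have e4 := hoth ((2 : Fin 3), x)
    have e5 := hfeas ((1 : Fin 3), x)
    have e6 := hfeas ((2 : Fin 3), x)
    have e7 := pay_le M (V_pos hb hδ f ((2 : Fin 3), x)) R
    have e8 : V f b δ ((2 : Fin 3), x) R = 2 := by rw [V, hR, value_one]; simp [rich]
    rw [e8] at e7
    have e9 := hothnn ((1 : Fin 3), x)
    set S0 := ∑ i ∈ univ.erase R, M.alloc (V f b δ ((0 : Fin 3), x)) i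
    set S1 := ∑ i ∈ univ.erase R, M.alloc (V f b δ ((1 : Fin 3), x)) i
    set S2 := ∑ i ∈ univ.erase R, M.alloc (V f b δ ((2 : Fin 3), x)) i
    set Q0 := ∑ i ∈ univ.erase R, M.pay (V f b δ ((0 : Fin 3), x)) i
    set Q1 := ∑ i ∈ univ.erase R, M.pay (V f b δ ((1 : Fin 3), x)) i
    set Q2 := ∑ i ∈ univ.erase R, M.pay (V f b δ ((2 : Fin 3), x)) i
    set A1 := M.alloc (V f b δ ((1 : Fin 3), x)) R
    set A2 := M.alloc (V f b δ ((2 : Fin 3), x)) R
    have e10 : 2 / (b - 2) * Q1 ≤ 2 / (b - 2) * (b * (1 - A1)) := by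
      apply mul_le_mul_of_nonneg_left _ hq.le
      have : (1 + ε) * S1 ≤ b * S1 := mul_le_mul_of_nonneg_right hε e9
      have : b * S1 ≤ b * (1 - A1) := mul_le_mul_of_nonneg_left (by linarith) (by linarith)
      linarith
    have e11 : 2 / (b - 2) * (b * (1 - A1)) = 2 / (b - 2) * b - 2 / (b - 2) * b * A1 := by ring
    nlinarith
  -- the shift
  have hsh : ∑ x : Fin m → Fin N, ∑ i ∈ univ.erase R, M.alloc (V f b δ ((0 : Fin 3), x)) i ≤
      ∑ x : Fin m → Fin N, ∑ i ∈ univ.erase R, M.alloc (V f b δ ((2 : Fin 3), x)) i +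
        (m + 1) * ((N : ℝ) ^ m / N) := by
    rw [Finset.sum_comm, Finset.sum_comm (s := (univ : Finset (Fin m → Fin N)))]
    have h1 : ∀ i ∈ univ.erase R, ∑ x : Fin m → Fin N, M.alloc (V f b δ ((0 : Fin 3), x)) i ≤
        ∑ x : Fin m → Fin N, M.alloc (V f b δ ((2 : Fin 3), x)) i + (N : ℝ) ^ m / N := by
      intro i hi
      refine shift hb hδ f hf hf0 M i fun h => ?_
      exact (Finset.ne_of_mem_erase hi) (hf (h.trans hR.symm))
    refine (Finset.sum_le_sum h1).trans (le_of_eq ?_)
    rw [Finset.sum_add_distrib, Finset.sum_const, Finset.card_erase_of_mem (mem_univ R),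
      Finset.card_univ, hcard, nsmul_eq_mul]
    congr 2
    have : m + 2 - 1 = m + 1 := by omega
    rw [this]
    push_cast
    ring
  have hS2 : ∑ x : Fin m → Fin N, ∑ i ∈ univ.erase R, M.alloc (V f b δ ((2 : Fin 3), x)) i ≤
      (N : ℝ) ^ m := by
    have : ∀ x : Fin m → Fin N, ∑ i ∈ univ.erase R, M.alloc (V f b δ ((2 : Fin 3), x)) i ≤ 1 := by
      intro x
      have h1 := hfeas ((2 : Fin 3), x)
      have h2 := M.alloc_nonneg _ (V_pos hb hδ f ((2 : Fin 3), x)) R
      linarith
    calc ∑ x : Fin m → Fin N, ∑ i ∈ univ.erase R, M.alloc (V f b δ ((2 : Fin 3), x)) i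
        ≤ ∑ _x : Fin m → Fin N, (1 : ℝ) := Finset.sum_le_sum fun x _ => this x
      _ = (N : ℝ) ^ m := by simp
  have hsum := Finset.sum_le_sum fun x (_ : x ∈ (univ : Finset (Fin m → Fin N))) => hpt x
  have hlhs : ∑ ω : Fin 3 × (Fin m → Fin N), wt b ω.1 * ∑ i, M.pay (V f b δ ω) i =
      ∑ x : Fin m → Fin N, (∑ i, M.pay (V f b δ ((0 : Fin 3), x)) i +
        2 / (b - 2) * ∑ i, M.pay (V f b δ ((1 : Fin 3), x)) i
        + ∑ i, M.pay (V f b δ ((2 : Fin 3), x)) i) := by
    rw [Fintype.sum_prod_type, Fin.sum_univ_three, ← Finset.sum_add_distrib,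
      ← Finset.sum_add_distrib]
    refine Finset.sum_congr rfl fun x _ => ?_
    simp [wt]
  rw [hlhs]
  refine hsum.trans ?_
  rw [Finset.sum_sub_distrib, Finset.sum_add_distrib, ← Finset.mul_sum, ← Finset.mul_sum]
  simp only [Finset.sum_const, Finset.card_univ, nsmul_eq_mul, Fintype.card_fun, Fintype.card_fin]
  set X0 := ∑ x : Fin m → Fin N, ∑ i ∈ univ.erase R, M.alloc (V f b δ ((0 : Fin 3), x)) i
  set X2 := ∑ x : Fin m → Fin N, ∑ i ∈ univ.erase R, M.alloc (V f b δ ((2 : Fin 3), x)) i
  push_cast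
  have h1 : (1 + ε) * X0 ≤ (1 + ε) * (X2 + (m + 1) * ((N : ℝ) ^ m / N)) :=
    mul_le_mul_of_nonneg_left hsh (by linarith)
  have h2 : 2 * ε * X2 ≤ 2 * ε * (N : ℝ) ^ m := mul_le_mul_of_nonneg_left hS2 (by linarith)
  nlinarith

end Upper

/-! ### The distribution -/

section Final

variable {m N : ℕ} [NeZero N] {b δ : ℝ}

/-- the total weight -/
noncomputable def tot (m N : ℕ) (b : ℝ) : ℝ := (2 + 2 / (b - 2)) * (N : ℝ) ^ m

lemma wt_zero : wt b 0 = 1 := if_neg (by decide)

lemma wt_one : wt b 1 = 2 / (b - 2) := if_pos rfl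

lemma wt_two : wt b 2 = 1 := if_neg (by decide)

lemma tot_pos (hb : 2 < b) : 0 < tot m N b := by
  have hb2 : 0 < b - 2 := by linarith
  have hN : (0 : ℝ) < N := by exact_mod_cast NeZero.pos N
  unfold tot
  positivity

lemma wt_nonneg (hb : 2 < b) (τ : Fin 3) : 0 ≤ wt b τ := by
  have hb2 : 0 < b - 2 := by linarith
  unfold wt
  split_ifs
  · positivity
  · norm_num

lemma sum_wt : ∑ ω : Fin 3 × (Fin m → Fin N), wt b ω.1 = tot m N b := by
  rw [Fintype.sum_prod_type, Fin.sum_univ_three]
  simp only [wt_zero, wt_one, wt_two, Finset.sum_const, Finset.card_univ, nsmul_eq_mul,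
    Fintype.card_fun, Fintype.card_fin]
  push_cast
  unfold tot
  ring

/-- the distribution -/
noncomputable def dist (m N : ℕ) [NeZero N] (b δ : ℝ) (hb : 2 < b) (hδ : 0 < δ) :
    Dist (m + 3) where
  Ω := Fin 3 × (Fin m → Fin N)
  fin := inferInstance
  prob := fun ω => wt b ω.1 / tot m N b
  val := fun ω => value b δ ω
  prob_nonneg := fun ω => div_nonneg (wt_nonneg hb _) (tot_pos hb).le
  prob_sum := by
    rw [← Finset.sum_div, sum_wt, div_self (tot_pos hb).ne']
  val_pos := fun ω => value_pos hb hδ ω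

lemma top_value (hb : 2 < b) (hδ : 0 < δ) (ω : Fin 3 × (Fin m → Fin N)) (i : Fin (m + 3)) :
    i ∈ top (m + 2) (value b δ ω) ↔ i ≠ 0 := by
  classical
  have h0 : i ∈ top (m + 2) (value b δ ω) ↔ (univ.filter fun j => value b δ ω i < value b δ ω j ∨
      (value b δ ω j = value b δ ω i ∧ j < i)).card < m + 2 := by
    unfold top
    rw [mem_filter]
    simp only [mem_univ, true_and]
  rw [h0]
  constructor
  · rintro h rfl
    have h1 : (univ : Finset (Fin (m + 3))).erase 0 ⊆ univ.filter fun j =>
        value b δ ω 0 < value b δ ω j ∨ (value b δ ω j = value b δ ω 0 ∧ j < 0) := by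
      intro j hj
      rw [mem_filter]
      refine ⟨mem_univ _, Or.inl ?_⟩
      rw [value_zero]
      exact value_gt hb hδ ω (Finset.ne_of_mem_erase hj)
    have h2 := Finset.card_le_card h1
    rw [Finset.card_erase_of_mem (mem_univ _), Finset.card_univ, Fintype.card_fin] at h2
    omega
  · intro hi
    have h1 : (univ.filter fun j => value b δ ω i < value b δ ω j ∨
        (value b δ ω j = value b δ ω i ∧ j < i)) ⊆ (univ.erase 0).erase i := by
      intro j hj
      rw [mem_filter] at hj
      have hi1 := value_gt hb hδ ω hi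
      rw [Finset.mem_erase, Finset.mem_erase]
      refine ⟨?_, ?_, mem_univ _⟩
      · rintro rfl
        rcases hj.2 with h | h
        · exact lt_irrefl _ h
        · exact lt_irrefl _ h.2
      · rintro rfl
        rw [value_zero] at hj
        rcases hj.2 with h | h
        · linarith
        · linarith [h.1]
    have h2 := Finset.card_le_card h1
    rw [Finset.card_erase_of_mem (Finset.mem_erase.2 ⟨hi, mem_univ _⟩),
      Finset.card_erase_of_mem (mem_univ _), Finset.card_univ, Fintype.card_fin] at h2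
    omega

lemma cell_univ (hb : 2 < b) (hδ : 0 < δ) (ω : (dist m N b δ hb hδ).Ω) :
    cell (m + 2) (dist m N b δ hb hδ) ω = univ := by
  classical
  unfold cell
  rw [Finset.filter_eq_self]
  intro ω' _
  refine ⟨?_, ?_⟩
  · ext i
    exact (top_value hb hδ ω' i).trans (top_value hb hδ ω i).symm
  · intro j hj
    have h1 : j = 0 := by
      by_contra h
      exact hj ((top_value hb hδ ω j).2 h)
    subst h1
    exact (value_zero (m := m) (N := N) (b := b) (δ := δ) ω').trans
      (value_zero (m := m) (N := N) (b := b) (δ := δ) ω).symm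

lemma main_bound' (hb : 2 < b) (hδ : 0 < δ) (hε : 1 + δ * (m * N + N + 2) ≤ b)
    {ι : Type} {hF : Fintype ι} {hD : DecidableEq ι}
    (f : ι → Fin (m + 3)) (hf : Function.Injective f) (hcard : @Fintype.card ι hF = m + 2)
    (hf0 : ∀ i, f i ≠ 0) (M : Mechanism ι) (R : ι) (hR : f R = 1) :
    ∑ ω : Fin 3 × (Fin m → Fin N), wt b ω.1 * ∑ i, M.pay (V f b δ ω) i ≤
      (N : ℝ) ^ m * (2 / (b - 2) * b + 2 + 2 * (δ * (m * N + N + 2))) +
        (1 + δ * (m * N + N + 2)) * ((m + 1) * ((N : ℝ) ^ m / N)) :=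
  main_bound hb hδ hε f hf hcard hf0 M R hR

/-- the bound for the lookahead revenue -/
noncomputable def bnd (m N : ℕ) (b δ : ℝ) : ℝ :=
  ((N : ℝ) ^ m * (2 / (b - 2) * b + 2 + 2 * (δ * (m * N + N + 2))) +
        (1 + δ * (m * N + N + 2)) * ((m + 1) * ((N : ℝ) ^ m / N))) / tot m N b

lemma rev_bound (hb : 2 < b) (hδ : 0 < δ) (hε : 1 + δ * (m * N + N + 2) ≤ b) :
    rev (m + 2) (dist m N b δ hb hδ) ≤ bnd m N b δ := by
  have h1 : ∀ ω : (dist m N b δ hb hδ).Ω,
      optTop (m + 2) (dist m N b δ hb hδ) ω ≤ bnd m N b δ := by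
    intro ω
    unfold optTop
    refine csSup_le ⟨_, zeroM _, rfl⟩ ?_
    rintro r ⟨M, rfl⟩
    rw [cell_univ hb hδ ω, (dist m N b δ hb hδ).prob_sum, div_one]
    let f : {i // i ∈ top (m + 2) ((dist m N b δ hb hδ).val ω)} → Fin (m + 3) := fun i => i.1
    have hf : Function.Injective f := Subtype.val_injective
    have hf0 : ∀ i, f i ≠ 0 := fun i => (top_value hb hδ ω i.1).1 i.2
    have hcard : Fintype.card (↥(top (m + 2) ((dist m N b δ hb hδ).val ω))) = m + 2 := by
      have h2 : top (m + 2) ((dist m N b δ hb hδ).val ω) = univ.erase 0 := by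
        ext i
        rw [Finset.mem_erase]
        exact (top_value hb hδ ω i).trans ⟨fun h => ⟨h, mem_univ _⟩, fun h => h.1⟩
      rw [Fintype.card_coe, h2, Finset.card_erase_of_mem (mem_univ _), Finset.card_univ,
        Fintype.card_fin]
      omega
    have h10 : (1 : Fin (m + 3)) ≠ 0 := by
      intro h
      have := congrArg Fin.val h
      simp at this
    let R : {i // i ∈ top (m + 2) ((dist m N b δ hb hδ).val ω)} :=
      ⟨1, (top_value hb hδ ω 1).2 h10⟩
    have h3 := main_bound' hb hδ hε f hf hcard hf0 M R rfl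
    have h4 : ∑ ω' : Fin 3 × (Fin m → Fin N), wt b ω'.1 / tot m N b *
        ∑ i, M.pay (V f b δ ω') i ≤ bnd m N b δ := by
      have h5 : ∑ ω' : Fin 3 × (Fin m → Fin N), wt b ω'.1 / tot m N b *
          ∑ i, M.pay (V f b δ ω') i = (∑ ω' : Fin 3 × (Fin m → Fin N), wt b ω'.1 *
          ∑ i, M.pay (V f b δ ω') i) / tot m N b := by
        rw [Finset.sum_div]
        exact Finset.sum_congr rfl fun ω' _ => by ring
      rw [h5]
      exact div_le_div_of_nonneg_right h3 (tot_pos hb).le
    exact h4
  unfold rev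
  calc ∑ ω, (dist m N b δ hb hδ).prob ω * optTop (m + 2) (dist m N b δ hb hδ) ω
      ≤ ∑ ω, (dist m N b δ hb hδ).prob ω * bnd m N b δ :=
        Finset.sum_le_sum fun ω _ => mul_le_mul_of_nonneg_left (h1 ω)
          ((dist m N b δ hb hδ).prob_nonneg ω)
    _ = bnd m N b δ := by
        rw [← Finset.sum_mul, (dist m N b δ hb hδ).prob_sum, one_mul]

end Final

/-! ### The mechanism for all bidders -/

section Mech

variable {m N : ℕ} {b δ : ℝ}

/-- the total value of the low bidders decides on the layer -/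
noncomputable def thr (m N : ℕ) (δ : ℝ) : ℝ := (m + 1) * (1 + δ) + δ * (m * N + 1 / 2)

/-- the total value of the low bidders -/
noncomputable def lowSum (m : ℕ) (v : Fin (m + 3) → ℝ) : ℝ := ∑ j : Fin m, v (low j) + v (lst m)

/-- the price for the rich bidder -/
noncomputable def price (m N : ℕ) (b δ : ℝ) (v : Fin (m + 3) → ℝ) : ℝ :=
  if thr m N δ < lowSum m v then 2 else b

lemma price_update (v : Fin (m + 3) → ℝ) (i : Fin (m + 3)) (hi : i = 0 ∨ i = 1) (y : ℝ) :
    price m N b δ (Function.update v i y) = price m N b δ v := by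
  have h1 : ∀ j : Fin m, low j ≠ i := by
    intro j h
    have h2 := congrArg Fin.val h
    rcases hi with rfl | rfl <;> simp [low] at h2
  have h2 : lst m ≠ i := by
    intro h
    have h2 := congrArg Fin.val h
    rcases hi with rfl | rfl <;> simp [lst] at h2
  have h3 : lowSum m (Function.update v i y) = lowSum m v := by
    unfold lowSum
    rw [Function.update_of_ne h2]
    congr 1
    exact Finset.sum_congr rfl fun j _ => Function.update_of_ne (h1 j) _ _
  unfold price
  rw [h3]

lemma price_pos (hb : 2 < b) (v : Fin (m + 3) → ℝ) : 0 < price m N b δ v := by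
  unfold price
  split_ifs <;> linarith

lemma one_ne_zero' : (1 : Fin (m + 3)) ≠ 0 := by
  intro h
  have := congrArg Fin.val h
  simp at this

/-- the allocation: the rich bidder at the price; otherwise the bidder `0` at the price `1` -/
noncomputable def al (m N : ℕ) (b δ : ℝ) (v : Fin (m + 3) → ℝ) (i : Fin (m + 3)) : ℝ :=
  if i = 1 then (if price m N b δ v ≤ v 1 then 1 else 0)
  else if i = 0 then (if price m N b δ v ≤ v 1 then 0 else if 1 ≤ v 0 then 1 else 0)
  else 0

/-- the payments -/
noncomputable def py (m N : ℕ) (b δ : ℝ) (v : Fin (m + 3) → ℝ) (i : Fin (m + 3)) : ℝ :=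
  if i = 1 then (if price m N b δ v ≤ v 1 then price m N b δ v else 0)
  else if i = 0 then (if price m N b δ v ≤ v 1 then 0 else if 1 ≤ v 0 then 1 else 0)
  else 0

lemma sum_two (g : Fin (m + 3) → ℝ) (hg : ∀ i, i ≠ 0 → i ≠ 1 → g i = 0) :
    ∑ i, g i = g 0 + g 1 := by
  rw [← Finset.add_sum_erase _ _ (mem_univ 0),
    ← Finset.add_sum_erase _ _ (Finset.mem_erase.2 ⟨one_ne_zero', mem_univ 1⟩),
    Finset.sum_eq_zero, add_zero]
  intro i hi
  rw [Finset.mem_erase, Finset.mem_erase] at hi
  exact hg i hi.2.1 hi.1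

/-- the mechanism -/
noncomputable def mech (m N : ℕ) (b δ : ℝ) (hb : 2 < b) : Mechanism (Fin (m + 3)) where
  alloc := al m N b δ
  pay := py m N b δ
  alloc_nonneg := by
    intro v _ i
    unfold al
    split_ifs <;> norm_num
  alloc_le_one := by
    intro v _
    rw [sum_two (al m N b δ v) (fun i h0 h1 => by simp [al, h0, h1])]
    have h1 : al m N b δ v 1 = if price m N b δ v ≤ v 1 then 1 else 0 := by simp [al]
    have h0 : al m N b δ v 0 = if price m N b δ v ≤ v 1 then 0 else if 1 ≤ v 0 then 1 else 0 := by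
      rw [al, if_neg one_ne_zero'.symm, if_pos rfl]
    rw [h0, h1]
    split_ifs <;> norm_num
  truthful := by
    intro v hv i y hy
    by_cases h1 : i = 1
    · subst h1
      have e1 : ∀ w : Fin (m + 3) → ℝ, w 1 * 0 = 0 := fun w => mul_zero _
      simp only [al, py, if_true, price_update v 1 (Or.inr rfl) y, Function.update_self]
      by_cases h2 : price m N b δ v ≤ y <;> by_cases h3 : price m N b δ v ≤ v 1 <;>
        simp [h2, h3] <;> linarith
    · by_cases h0 : i = 0
      · subst h0
        simp only [al, py, if_neg one_ne_zero'.symm, if_true, price_update v 0 (Or.inl rfl) y,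
          Function.update_self, Function.update_of_ne one_ne_zero']
        by_cases h3 : price m N b δ v ≤ v 1
        · simp [h3]
        · by_cases h4 : 1 ≤ y <;> by_cases h5 : 1 ≤ v 0 <;> simp [h3, h4, h5] <;> linarith
      · simp [al, py, h0, h1]
  rational := by
    intro v hv i
    by_cases h1 : i = 1
    · subst h1
      simp only [al, py, if_true]
      by_cases h3 : price m N b δ v ≤ v 1 <;> simp [h3]
    · by_cases h0 : i = 0
      · subst h0
        simp only [al, py, if_neg one_ne_zero'.symm, if_true]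
        by_cases h3 : price m N b δ v ≤ v 1
        · simp [h3]
        · by_cases h5 : 1 ≤ v 0 <;> simp [h3, h5]
      · simp [al, py, h0, h1]

end Mech

section Final2

variable {m N : ℕ} [NeZero N] {b δ : ℝ}

lemma lowSum_value (ω : Fin 3 × (Fin m → Fin N)) :
    lowSum m (value b δ ω) = (m + 1) * (1 + δ) + δ * (m * N + lay ω.1) := by
  unfold lowSum
  rw [value_lst]
  have h1 : ∀ j : Fin m, value b δ ω (low j) = 1 + δ * (((ω.2 j : ℕ) : ℝ) + 1) :=
    fun j => value_low ω j
  simp only [h1]
  rw [Finset.sum_add_distrib, ← Finset.mul_sum, Finset.sum_add_distrib]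
  simp only [Finset.sum_const, Finset.card_univ, Fintype.card_fin, nsmul_eq_mul, mul_one]
  ring

lemma price_value (hδ : 0 < δ) (ω : Fin 3 × (Fin m → Fin N)) :
    price m N b δ (value b δ ω) = if ω.1 = 2 then 2 else b := by
  unfold price
  rw [lowSum_value, thr]
  by_cases h : ω.1 = 2
  · rw [if_pos h, if_pos]
    rw [h, lay_two]
    nlinarith
  · rw [if_neg h, if_neg]
    have h2 : lay ω.1 = 0 := if_neg h
    rw [h2]
    nlinarith

lemma pay_value (hb : 2 < b) (hδ : 0 < δ) (ω : Fin 3 × (Fin m → Fin N)) :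
    ∑ i, (mech m N b δ hb).pay (value b δ ω) i =
      if ω.1 = 2 then 2 else if ω.1 = 1 then b else 1 := by
  show ∑ i, py m N b δ (value b δ ω) i = _
  rw [sum_two (py m N b δ (value b δ ω)) (fun i h0 h1 => by simp [py, h0, h1])]
  have h1 : py m N b δ (value b δ ω) 1 = if price m N b δ (value b δ ω) ≤ value b δ ω 1 then
    price m N b δ (value b δ ω) else 0 := by simp [py]
  have h0 : py m N b δ (value b δ ω) 0 = if price m N b δ (value b δ ω) ≤ value b δ ω 1 then 0
      else if 1 ≤ value b δ ω 0 then 1 else 0 := by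
    rw [py, if_neg one_ne_zero'.symm, if_pos rfl]
  rw [h0, h1, price_value hδ, value_one, value_zero, rich]
  by_cases h2 : ω.1 = 2
  · have h3 : ω.1 ≠ 1 := by rw [h2]; decide
    simp [h2]
  · by_cases h3 : ω.1 = 1
    · simp [h3]
    · have h4 : ¬ b ≤ 2 := by linarith
      simp [h2, h3, h4]

lemma OPT_bound (hb : 2 < b) (hδ : 0 < δ) :
    (N : ℝ) ^ m * (2 / (b - 2) * b + 3) / tot m N b ≤ OPT (dist m N b δ hb hδ) := by
  refine le_trans (le_of_eq ?_) (OPT_ge (dist m N b δ hb hδ) (mech m N b δ hb))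
  show _ = ∑ ω : Fin 3 × (Fin m → Fin N), wt b ω.1 / tot m N b *
    ∑ i, (mech m N b δ hb).pay (value b δ ω) i
  have h1 : ∀ ω : Fin 3 × (Fin m → Fin N), wt b ω.1 / tot m N b *
      ∑ i, (mech m N b δ hb).pay (value b δ ω) i =
      (wt b ω.1 * (if ω.1 = 2 then 2 else if ω.1 = 1 then b else 1)) / tot m N b := by
    intro ω
    rw [pay_value hb hδ ω]
    ring
  rw [Finset.sum_congr rfl fun ω _ => h1 ω, ← Finset.sum_div]
  congr 1
  have e0 : (if (0 : Fin 3) = 2 then (2 : ℝ) else if (0 : Fin 3) = 1 then b else 1) = 1 := by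
    rw [if_neg (by decide), if_neg (by decide)]
  have e1 : (if (1 : Fin 3) = 2 then (2 : ℝ) else if (1 : Fin 3) = 1 then b else 1) = b := by
    rw [if_neg (by decide), if_pos rfl]
  have e2 : (if (2 : Fin 3) = 2 then (2 : ℝ) else if (2 : Fin 3) = 1 then b else 1) = 2 :=
    if_pos rfl
  rw [Fintype.sum_prod_type, Fin.sum_univ_three]
  show _ = ∑ _x : Fin m → Fin N, wt b 0 * (if (0 : Fin 3) = 2 then (2 : ℝ) else
      if (0 : Fin 3) = 1 then b else 1) + ∑ _x : Fin m → Fin N, wt b 1 *
      (if (1 : Fin 3) = 2 then (2 : ℝ) else if (1 : Fin 3) = 1 then b else 1) +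
      ∑ _x : Fin m → Fin N, wt b 2 * (if (2 : Fin 3) = 2 then (2 : ℝ) else
      if (2 : Fin 3) = 1 then b else 1)
  rw [e0, e1, e2, wt_zero, wt_one, wt_two]
  simp only [Finset.sum_const, Finset.card_univ, nsmul_eq_mul, Fintype.card_fun,
    Fintype.card_fin]
  push_cast
  ring

end Final2

/-- the bound for one instance -/
lemma rho_bound (m N : ℕ) [NeZero N] (b δ : ℝ) (hb : 2 < b) (hδ : 0 < δ)
    (hε : 1 + δ * (m * N + N + 2) ≤ b) :
    rho (m + 2) ≤ 4 / 5 + (4 / (b - 2) + 2 * (δ * (m * N + N + 2)) +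
      (1 + δ * (m * N + N + 2)) * ((m + 1) / N)) / 5 := by
  have hb2 : 0 < b - 2 := by linarith
  have hN : (0 : ℝ) < N := by exact_mod_cast NeZero.pos N
  have hNm : (0 : ℝ) < (N : ℝ) ^ m := by positivity
  have ht := tot_pos (m := m) (N := N) hb
  have h1 := OPT_bound (m := m) (N := N) hb hδ
  have h2 := rev_bound hb hδ hε
  have hq : 2 / (b - 2) * b = 2 + 4 / (b - 2) := by
    field_simp
    ring
  have hκ : 0 < 4 / (b - 2) := by positivity
  have h3 : 0 < (N : ℝ) ^ m * (2 / (b - 2) * b + 3) / tot m N b := by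
    rw [hq]
    positivity
  have h4 := rho_le (m + 2) (dist m N b δ hb hδ) (h3.trans_le h1)
  refine h4.trans ?_
  set ε := δ * (m * N + N + 2) with hεd
  have hε0 : 0 ≤ ε := by rw [hεd]; positivity
  have hrev0 := rev_nonneg (m + 2) (dist m N b δ hb hδ)
  have h5 : rev (m + 2) (dist m N b δ hb hδ) / OPT (dist m N b δ hb hδ) ≤
      bnd m N b δ / ((N : ℝ) ^ m * (2 / (b - 2) * b + 3) / tot m N b) :=
    div_le_div₀ (hrev0.trans h2) h2 h3 h1
  refine h5.trans ?_
  unfold bnd
  rw [div_div_div_cancel_right₀ ht.ne', ← hεd]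
  have h6 : (N : ℝ) ^ m * (2 / (b - 2) * b + 2 + 2 * ε) + (1 + ε) * ((m + 1) * ((N : ℝ) ^ m / N)) =
      (N : ℝ) ^ m * (2 / (b - 2) * b + 2 + 2 * ε + (1 + ε) * ((m + 1) / N)) := by
    field_simp
  rw [h6, mul_div_mul_left _ _ hNm.ne', hq]
  set κ := 4 / (b - 2)
  have hμ : 0 ≤ (1 + ε) * (((m : ℝ) + 1) / N) := by positivity
  set μ := (1 + ε) * (((m : ℝ) + 1) / N)
  rw [div_le_iff₀ (by linarith)]
  nlinarith [mul_nonneg hκ.le hκ.le, mul_nonneg hκ.le hε0, mul_nonneg hκ.le hμ]

/-- **The approximation ratio of the `k`-lookahead mechanism is at most `4/5` for every `k ≥ 2`; in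
particular it does not tend to `1`.** -/
theorem result : (∀ k, 2 ≤ k → rho k ≤ 4 / 5) ∧
    ¬ Filter.Tendsto rho Filter.atTop (nhds 1) := by
  have main : ∀ k, 2 ≤ k → rho k ≤ 4 / 5 := by
    intro k hk
    obtain ⟨m, rfl⟩ : ∃ m, k = m + 2 := ⟨k - 2, by omega⟩
    refine le_of_forall_pos_le_add fun η hη => ?_
    -- the parameters
    obtain ⟨N, hN⟩ := exists_nat_gt ((2 * (m + 1)) / η + 1)
    have hN0 : (0 : ℝ) < N := by
      have : (0 : ℝ) ≤ (2 * (m + 1)) / η := by positivity
      linarith
    have : NeZero N := ⟨by rintro rfl; simp at hN0⟩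
    set b : ℝ := 4 / η + 4 with hbd
    have hb : 2 < b := by
      have : 0 < 4 / η := by positivity
      linarith
    set W : ℝ := m * N + N + 2 with hW
    have hWp : 0 < W := by positivity
    set δ : ℝ := min 1 (η / 2) / W with hδd
    have hδ : 0 < δ := by
      have : 0 < min 1 (η / 2) := lt_min one_pos (by linarith)
      positivity
    have hδW : δ * W = min 1 (η / 2) := by
      rw [hδd]
      field_simp
    have hε : 1 + δ * (m * N + N + 2) ≤ b := by
      rw [← hW, hδW]
      have h1 : min 1 (η / 2) ≤ 1 := min_le_left _ _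
      linarith
    refine (rho_bound m N b δ hb hδ hε).trans ?_
    rw [← hW, hδW]
    have h1 : min 1 (η / 2) ≤ 1 := min_le_left _ _
    have h2 : min 1 (η / 2) ≤ η / 2 := min_le_right _ _
    have h2' : 0 ≤ min 1 (η / 2) := le_min zero_le_one (by linarith)
    have h3 : 4 / (b - 2) ≤ η := by
      rw [div_le_iff₀ (by linarith), hbd]
      have : η * (4 / η + 4 - 2) = 4 + 2 * η := by
        field_simp
        ring
      linarith
    have h4 : ((m : ℝ) + 1) / N ≤ η / 2 := by
      rw [div_le_iff₀ hN0]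
      have h5 : (2 * ((m : ℝ) + 1)) / η < N := by linarith
      rw [div_lt_iff₀ hη] at h5
      linarith
    have h6 : (1 + min 1 (η / 2)) * (((m : ℝ) + 1) / N) ≤ 2 * (η / 2) := by
      apply mul_le_mul (by linarith) h4 (by positivity) (by norm_num)
    linarith
  refine ⟨main, fun h => ?_⟩
  have h1 : (1 : ℝ) ≤ 4 / 5 := by
    refine le_of_tendsto h ?_
    filter_upwards [Filter.eventually_ge_atTop 2] with k hk
    exact main k hk
  norm_num at h1

end Pool.Agent.Results.MP_0f9109_lc.RatioStaysBelow
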